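import Pool.Agent.Helper88.EXT.Defs

/-!
# The model (core of MP_9b0a74_lc) from the base ideal and the main lemma
-/

open Encodable

namespace EXT88

/-- `R` is a strict partial order on `X`. -/
structure IsSPO (R : ℕ → ℕ → Prop) (X : ℕ → Prop) : Prop where
  irrefl : ∀ x, X x → ¬ R x x
  trans : ∀ x y z, X x → X y → X z → R x y → R y z → R x z

/-- `R` is a strict linear order on `X`. -/
structure IsSLO (R : ℕ → ℕ → Prop) (X : ℕ → Prop) : Prop extends IsSPO R X where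
  total : ∀ x y, X x → X y → x ≠ y → R x y ∨ R y x

variable {U : ℕ → Prop}

/-- The ideal `r` takes care of the partial order `P` on `X`. -/
def Good (X : ℕ → Prop) (P : ℕ → ℕ → Prop) (r : Idl U) : Prop :=
  (∃ f : ℕ → ℕ, Dl r.car (fun x : ℕ × ℕ => f x.1 = x.2) ∧ (∀ i, X (f i)) ∧
      ∀ i, P (f (i + 1)) (f i)) ∨
  (∃ L : ℕ → ℕ → Prop, Dl r.car (fun x : ℕ × ℕ => L x.1 x.2) ∧ IsSLO L X ∧
      (∀ x y, X x → X y → P x y → L x y) ∧ Coded U L X r.car)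

theorem exists_good
    (hmain : ∀ (R : ℕ → ℕ → Prop), SPO R → ∀ S : Idl U, Sg S.car (fun n : ℕ => ¬ U n) →
      Dl S.car (fun x : ℕ × ℕ => R x.1 x.2) → ∀ C : ℕ → Prop, Dl S.car C →
      Coded U R C S.car → Sol R C S)
    (p : Idl U) (hU : Sg p.car (fun n : ℕ => ¬ U n)) (X : ℕ → Prop) (P : ℕ → ℕ → Prop)
    (hX : Dl p.car X) (hP : Dl p.car (fun x : ℕ × ℕ => P x.1 x.2)) (hPO : IsSPO P X) :
    ∃ r : Idl U, p ≤ r ∧ Good X P r := by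
  set R : ℕ → ℕ → Prop := fun x y => X x ∧ X y ∧ P x y with hRdef
  have hR : SPO R := ⟨fun x h => hPO.irrefl x h.1 h.2.2,
    fun x y z h1 h2 => ⟨h1.1, h2.2.1, hPO.trans x y z h1.1 h1.2.1 h2.2.1 h1.2.2 h2.2.2⟩⟩
  have hRD : Dl p.car (fun x : ℕ × ℕ => R x.1 x.2) :=
    p.sig.dand (p.sig.dcomp hX Primrec.fst) (p.sig.dand (p.sig.dcomp hX Primrec.snd) hP)
  by_cases hc : Coded U R X p.car
  · obtain ⟨T, hpT, L, hL, hSL, htot, hext, hcod⟩ := hmain R hR p hU hRD X hX hc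
    refine ⟨T, hpT, Or.inr ⟨L, hL, ?_, ?_, hcod⟩⟩
    · exact ⟨⟨fun x _ => hSL.irr x, fun x y z _ _ _ => hSL.tr x y z⟩, htot⟩
    · intro x y hx hy h
      exact hext x y hx hy ⟨hx, hy, h⟩
  · unfold Coded at hc
    push Not at hc
    obtain ⟨f, hf, hUf⟩ := hc
    refine ⟨p.adj f hUf, p.le_adj f hUf, Or.inl ⟨f, graph_adj p.sig f, hf.1, ?_⟩⟩
    intro i
    exact (hf.2 i).2.2

/-- The model, from the base ideal and the main lemma. -/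
theorem core_of
    (hbase : ∃ 𝓢 : Set (ℕ → Prop), 𝓢.Countable ∧ IsSig 𝓢 ∧
      ∃ T : ℕ → ℕ → Prop, PrimrecRel T ∧ (fun n : ℕ => ¬ ∃ m, T n m) ∉ 𝓢)
    (hmain : ∀ (U : ℕ → Prop) (R : ℕ → ℕ → Prop), SPO R → ∀ S : Idl U,
      Sg S.car (fun n : ℕ => ¬ U n) →
      Dl S.car (fun x : ℕ × ℕ => R x.1 x.2) → ∀ C : ℕ → Prop, Dl S.car C →
      Coded U R C S.car → Sol R C S) :
    ∃ 𝓜 : Set (ℕ → Prop), 𝓜.Countable ∧ IsSig 𝓜 ∧
    (∃ T : ℕ → ℕ → Prop, PrimrecRel T ∧ ¬ Dl 𝓜 (fun n : ℕ => ∃ m, T n m)) ∧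
    ∀ (X : ℕ → Prop) (P : ℕ → ℕ → Prop), Dl 𝓜 X → Dl 𝓜 (fun x : ℕ × ℕ => P x.1 x.2) →
      IsSPO P X →
      (∃ f : ℕ → ℕ, Dl 𝓜 (fun x : ℕ × ℕ => f x.1 = x.2) ∧ (∀ i, X (f i)) ∧
        ∀ i, P (f (i + 1)) (f i)) ∨
      (∃ L : ℕ → ℕ → Prop, Dl 𝓜 (fun x : ℕ × ℕ => L x.1 x.2) ∧ IsSLO L X ∧
        (∀ x y, X x → X y → P x y → L x y) ∧
        ¬ ∃ f : ℕ → ℕ, Dl 𝓜 (fun x : ℕ × ℕ => f x.1 = x.2) ∧ (∀ i, X (f i)) ∧
          ∀ i, L (f (i + 1)) (f i)) := by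
  classical
  obtain ⟨𝓢, hctb, hsig, T, hT, hTS⟩ := hbase
  set U : ℕ → Prop := fun n => ¬ ∃ m, T n m with hUdef
  let S₀ : Idl U := ⟨𝓢, hsig, hctb, hTS⟩
  have hex𝓢 : Sg 𝓢 (fun n : ℕ => ∃ m, T n m) := hsig.ex' (hsig.primRel hT)
  have hU0 : Sg 𝓢 (fun n : ℕ => ¬ U n) := hex𝓢.congr (by intro a; rw [hUdef]; simp)
  -- enumerations
  have henum : ∀ q : Idl U, ∃ e : ℕ → (ℕ → Prop), ∀ p, p ∈ q.car ↔ ∃ n, e n = p :=
    fun q => q.exists_enum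
  choose e he using henum
  let Xn : Idl U → ℕ → (ℕ → Prop) := fun q n => e q n.unpair.1
  let Pn : Idl U → ℕ → (ℕ → ℕ → Prop) := fun q n x y => e q n.unpair.2 (encode (x, y))
  let Q : Type := {q : Idl U // S₀ ≤ q}
  let D : Q → ℕ → Q → Prop := fun q n r =>
    Dl q.1.car (Xn q.1 n) → Dl q.1.car (fun x : ℕ × ℕ => Pn q.1 n x.1 x.2) →
      IsSPO (Pn q.1 n) (Xn q.1 n) → Good (Xn q.1 n) (Pn q.1 n) r.1
  have hdense : ∀ q p : Q, ∀ n : ℕ, q.1 ≤ p.1 → ∃ r : Q, p.1 ≤ r.1 ∧ D q n r := by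
    intro q p n hqp
    by_cases h1 : Dl q.1.car (Xn q.1 n)
    · by_cases h2 : Dl q.1.car (fun x : ℕ × ℕ => Pn q.1 n x.1 x.2)
      · by_cases h3 : IsSPO (Pn q.1 n) (Xn q.1 n)
        · obtain ⟨r, hpr, hg⟩ := exists_good (hmain U) p.1 (Sg.mono p.2 hU0) _ _
            (h1.mono hqp) (h2.mono hqp) h3
          exact ⟨⟨r, le_trans p.2 hpr⟩, hpr, fun _ _ _ => hg⟩
        · exact ⟨p, le_refl _, fun _ _ h => absurd h h3⟩
      · exact ⟨p, le_refl _, fun _ h => absurd h h2⟩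
    · exact ⟨p, le_refl _, fun h => absurd h h1⟩
  obtain ⟨s, hs0, hmono, hmeet⟩ := generic (fun q p : Q => q.1 ≤ p.1) (fun q => le_refl _)
    (fun _ _ _ => le_trans) D hdense ⟨S₀, le_refl _⟩
  have hmono' : ∀ i j, i ≤ j → (s i).1 ≤ (s j).1 := by
    intro i j hij
    induction j, hij using Nat.le_induction with
    | base => exact le_refl _
    | succ j _ ih => exact le_trans ih (hmono j)
  let M : Idl U := Idl.sup (fun k => (s k).1) hmono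
  have hleM : ∀ k, (s k).1 ≤ M := fun k => Idl.le_sup (fun k => (s k).1) hmono k
  have hfind : ∀ p : ℕ → Prop, p ∈ M.car → ∃ k, p ∈ (s k).1.car := by
    intro p hp
    exact Set.mem_iUnion.1 hp
  refine ⟨M.car, M.ctb, M.sig, ⟨T, hT, ?_⟩, ?_⟩
  · intro h
    apply M.avoid
    rw [← sg_nat]
    exact h.2
  · intro X P hX hP hPO
    obtain ⟨k1, h1⟩ := hfind _ hX.1
    obtain ⟨k2, h2⟩ := hfind _ hX.2
    obtain ⟨k3, h3⟩ := hfind _ hP.1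
    obtain ⟨k4, h4⟩ := hfind _ hP.2
    set k := max (max k1 k2) (max k3 k4) with hk
    have hXk : Dl (s k).1.car X :=
      ⟨hmono' k1 k (by omega) h1, hmono' k2 k (by omega) h2⟩
    have hPk : Dl (s k).1.car (fun x : ℕ × ℕ => P x.1 x.2) :=
      ⟨hmono' k3 k (by omega) h3, hmono' k4 k (by omega) h4⟩
    obtain ⟨a, ha⟩ := (he (s k).1 X).1 (sg_nat.1 hXk.1)
    obtain ⟨b, hb⟩ := (he (s k).1 _).1 hPk.1
    have eX : Xn (s k).1 (Nat.pair a b) = X := by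
      simp only [Xn, Nat.unpair_pair, ha]
    have eP : Pn (s k).1 (Nat.pair a b) = P := by
      funext x y
      simp only [Pn, Nat.unpair_pair, hb]
      simp only [encodek, Option.some.injEq, exists_eq_left']
    obtain ⟨j, hkj, hD⟩ := hmeet k (Nat.pair a b)
    have hgood : Good X P (s j).1 := by
      have := hD
      simp only [D, eX, eP] at this
      exact this hXk hPk hPO
    rcases hgood with ⟨f, hf, hfX, hfP⟩ | ⟨L, hL, hSLO, hext, hcod⟩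
    · exact Or.inl ⟨f, hf.mono (hleM j), hfX, hfP⟩
    · refine Or.inr ⟨L, hL.mono (hleM j), hSLO, hext, ?_⟩
      rintro ⟨f, hf, hfX, hfL⟩
      apply M.avoid
      exact adj_subset M.sig (hleM j) hf.1 (hcod f ⟨hfX, hfL⟩)

end EXT88
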